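import Mathlib
import Pool.Agent.H5.MGHilb

set_option autoImplicit false

namespace Pool.Agent.Results.MP_411355_ag.Disconnected

open MvPolynomial Pool.Agent.H5.MGHilb

universe u

/-- The degrees of the three variables: `deg x = (1,1)`, `deg y = (2,0)`, `deg z = (0,2)`. -/
def wt : Fin 3 → ℤ × ℤ := ![(1, 1), (2, 0), (0, 2)]

def dg : Fin 18 → ℤ × ℤ :=
  ![(0,0), (0,2), (0,4), (2,0), (2,2), (4,0), (4,2), (6,0), (6,2), (1,1), (1,3), (1,5), (3,1), (2,2),
    (2,4), (3,3), (3,5), (4,4)]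

/-- exponents of the first monomials of the basis elements -/
def ea : Fin 18 → ℕ := ![0, 0, 0, 0, 0, 0, 0, 0, 0, 1, 1, 1, 1, 2, 0, 1, 1, 0]
def eb : Fin 18 → ℕ := ![0, 0, 0, 1, 1, 2, 2, 3, 3, 0, 0, 0, 1, 0, 1, 1, 1, 2]
def ec : Fin 18 → ℕ := ![0, 1, 2, 0, 1, 0, 1, 0, 1, 0, 1, 2, 0, 0, 2, 1, 2, 2]

/-- exponents of the second monomials of the last four basis elements -/
def ea' : Fin 18 → ℕ := ![0, 0, 0, 0, 0, 0, 0, 0, 0, 1, 1, 1, 1, 2, 2, 3, 3, 4]
def eb' : Fin 18 → ℕ := ![0, 0, 0, 1, 1, 2, 2, 3, 3, 0, 0, 0, 1, 0, 0, 0, 0, 0]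
def ec' : Fin 18 → ℕ := ![0, 1, 2, 0, 1, 0, 1, 0, 1, 0, 1, 2, 0, 0, 1, 0, 1, 0]

/-- The monomial with exponents `a, b, c`. -/
noncomputable def e3 (a b c : ℕ) : Fin 3 →₀ ℕ :=
  Finsupp.single 0 a + Finsupp.single 1 b + Finsupp.single 2 c

lemma e3_0 (a b c : ℕ) : e3 a b c 0 = a := by simp [e3]
lemma e3_1 (a b c : ℕ) : e3 a b c 1 = b := by simp [e3]
lemma e3_2 (a b c : ℕ) : e3 a b c 2 = c := by simp [e3]

lemma e3_eta (s : Fin 3 →₀ ℕ) : s = e3 (s 0) (s 1) (s 2) := by
  ext i
  fin_cases i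
  · exact (e3_0 _ _ _).symm
  · exact (e3_1 _ _ _).symm
  · exact (e3_2 _ _ _).symm

lemma weight_eq (s : Fin 3 →₀ ℕ) :
    Finsupp.weight wt s = ((s 0 : ℤ) + 2 * s 1, (s 0 : ℤ) + 2 * s 2) := by
  rw [Finsupp.weight_apply, Finsupp.sum_fintype _ _ (by simp)]
  ext <;> simp [Fin.sum_univ_three, wt, mul_comm]

/-- Table of normal forms: `(0, j)` is `b_j`, `(1, j)` is `e b_j`, `(2, j)` is `(1 - e) b_j`. -/
def nfi : ℕ → ℕ → ℕ → Option (Fin 3 × Fin 18)
  | 0, 0, 0 => some (0, 0)
  | 0, 0, 1 => some (0, 1)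
  | 0, 0, 2 => some (0, 2)
  | 0, 1, 0 => some (0, 3)
  | 0, 1, 1 => some (0, 4)
  | 0, 1, 2 => some (1, 14)
  | 0, 2, 0 => some (0, 5)
  | 0, 2, 1 => some (0, 6)
  | 0, 2, 2 => some (1, 17)
  | 0, 3, 0 => some (0, 7)
  | 0, 3, 1 => some (0, 8)
  | 1, 0, 0 => some (0, 9)
  | 1, 0, 1 => some (0, 10)
  | 1, 0, 2 => some (0, 11)
  | 1, 1, 0 => some (0, 12)
  | 1, 1, 1 => some (1, 15)
  | 1, 1, 2 => some (1, 16)
  | 2, 0, 0 => some (0, 13)
  | 2, 0, 1 => some (2, 14)
  | 3, 0, 0 => some (2, 15)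
  | 3, 0, 1 => some (2, 16)
  | 4, 0, 0 => some (2, 17)
  | _, _, _ => none

/-- Table of the products `x_i b_j`. -/
def mt : Fin 3 → Fin 18 → Option (Fin 3 × Fin 18)
  | 0, 0 => some (0, 9)
  | 0, 1 => some (0, 10)
  | 0, 2 => some (0, 11)
  | 0, 3 => some (0, 12)
  | 0, 4 => some (1, 15)
  | 0, 9 => some (0, 13)
  | 0, 10 => some (2, 14)
  | 0, 13 => some (2, 15)
  | 0, 14 => some (0, 16)
  | 0, 15 => some (2, 17)
  | 1, 0 => some (0, 3)
  | 1, 1 => some (0, 4)
  | 1, 2 => some (1, 14)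
  | 1, 3 => some (0, 5)
  | 1, 4 => some (0, 6)
  | 1, 5 => some (0, 7)
  | 1, 6 => some (0, 8)
  | 1, 9 => some (0, 12)
  | 1, 10 => some (1, 15)
  | 1, 11 => some (1, 16)
  | 1, 14 => some (1, 17)
  | 2, 0 => some (0, 1)
  | 2, 1 => some (0, 2)
  | 2, 3 => some (0, 4)
  | 2, 4 => some (1, 14)
  | 2, 5 => some (0, 6)
  | 2, 6 => some (1, 17)
  | 2, 7 => some (0, 8)
  | 2, 9 => some (0, 10)
  | 2, 10 => some (0, 11)
  | 2, 12 => some (1, 15)
  | 2, 13 => some (2, 14)
  | 2, 15 => some (0, 16)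
  | _, _ => none

/-- product of coefficients: `0 ↔ 1`, `1 ↔ e`, `2 ↔ 1 - e`. -/
def fm : Fin 3 → Fin 3 → Option (Fin 3)
  | 0, v => some v
  | u, 0 => some u
  | 1, 1 => some 1
  | 2, 2 => some 2
  | _, _ => none

/-- product of an entry by a variable according to the table `mt`. -/
def nm (i : Fin 3) : Option (Fin 3 × Fin 18) → Option (Fin 3 × Fin 18)
  | none => none
  | some (u, j) =>
    match mt i j with
    | none => none
    | some (v, j') =>
      match fm u v with
      | none => none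
      | some w => some (w, j')

lemma nfi_step (i : Fin 3) (a b c : ℕ) :
    nfi (a + if i = 0 then 1 else 0) (b + if i = 1 then 1 else 0) (c + if i = 2 then 1 else 0) =
      nm i (nfi a b c) := by
  rcases a with _ | _ | _ | _ | _ | a <;> rcases b with _ | _ | _ | _ | b <;>
    rcases c with _ | _ | _ | c <;> fin_cases i <;> rfl

section vec

variable {R : Type u} [CommRing R]

def co (e : R) : Fin 3 → R := ![1, e, 1 - e]

def vo (e : R) : Option (Fin 3 × Fin 18) → (Fin 18 → R)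
  | none => 0
  | some (u, j) => Pi.single j (co e u)

/-- normal form vector of a monomial -/
def vec (e : R) (s : Fin 3 →₀ ℕ) : Fin 18 → R := vo e (nfi (s 0) (s 1) (s 2))

noncomputable def bb (R : Type u) [CommRing R] (j : Fin 18) : MvPolynomial (Fin 3) R :=
  if j.1 < 14 then monomial (e3 (ea j) (eb j) (ec j)) 1
  else monomial (e3 (ea j) (eb j) (ec j)) 1 + monomial (e3 (ea' j) (eb' j) (ec' j)) 1

noncomputable def Mm (e : R) (i : Fin 3) : (Fin 18 → R) →ₗ[R] (Fin 18 → R) :=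
  Fintype.linearCombination R (fun j => vo e (mt i j))

lemma Mm_single (e : R) (i : Fin 3) (j : Fin 18) (r : R) :
    Mm e i (Pi.single j r) = r • vo e (mt i j) := by
  rw [Mm, Fintype.linearCombination_apply_single]

lemma co_mul (e : R) (he : e * e = e) (u v : Fin 3) :
    co e u * co e v = match fm u v with
      | none => 0
      | some w => co e w := by
  fin_cases u <;> fin_cases v <;> simp [co, fm, he, mul_sub, sub_mul]

lemma Mm_vo (e : R) (he : e * e = e) (i : Fin 3) (o : Option (Fin 3 × Fin 18)) :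
    Mm e i (vo e o) = vo e (nm i o) := by
  rcases o with _ | ⟨u, j⟩
  · simp [vo, nm]
  · rw [vo, Mm_single, nm]
    rcases hm : mt i j with _ | ⟨v, j'⟩
    · simp [vo]
    · have h1 := co_mul e he u v
      have h2 : co e u • (Pi.single j' (co e v) : Fin 18 → R) = Pi.single j' (co e u * co e v) := by
        rw [← Pi.single_smul, smul_eq_mul]
      change co e u • (Pi.single j' (co e v) : Fin 18 → R) = _
      rw [h2, h1]
      rcases hf : fm u v with _ | w
      · simp [vo, hf]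
      · simp [vo, hf]

lemma compat (e : R) (he : e * e = e) : MulCompat (vec e) := by
  intro i
  refine ⟨Mm e i, fun s => ?_⟩
  rw [vec, vec, Mm_vo e he, ← nfi_step]
  congr 2 <;> fin_cases i <;> simp

lemma nfi_deg : ∀ (a b c : ℕ) (p : Fin 3 × Fin 18), nfi a b c = some p →
    (((a : ℤ) + 2 * b, (a : ℤ) + 2 * c) : ℤ × ℤ) = dg p.2 := by
  intro a b c p h
  rcases a with _ | _ | _ | _ | _ | a <;> rcases b with _ | _ | _ | _ | b <;>
    rcases c with _ | _ | _ | c <;> simp [nfi] at h <;> subst h <;> simp [dg]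

lemma sys (e : R) (he : e * e = e) : NFSys wt dg (vec e) (bb R) where
  compat := compat e he
  base := by
    intro j
    rw [bb]
    split_ifs with hj
    · rw [NF_monomial, one_smul, vec, e3_0, e3_1, e3_2]
      have h1 : nfi (ea j) (eb j) (ec j) = some (0, j) := by
        fin_cases j <;> first | rfl | (exact absurd hj (by decide))
      rw [h1, vo]
      rfl
    · rw [map_add, NF_monomial, NF_monomial, one_smul, one_smul, vec, vec, e3_0, e3_1, e3_2, e3_0,
        e3_1, e3_2]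
      have h1 : nfi (ea j) (eb j) (ec j) = some (1, j) := by
        fin_cases j <;> first | rfl | (exact absurd (by decide) hj)
      have h2 : nfi (ea' j) (eb' j) (ec' j) = some (2, j) := by
        fin_cases j <;> first | rfl | (exact absurd (by decide) hj)
      rw [h1, h2, vo, vo, ← Pi.single_add]
      congr 1
      change e + (1 - e) = 1
      ring
  homog := by
    intro s j hj
    rw [weight_eq]
    rw [vec] at hj
    rcases hn : nfi (s 0) (s 1) (s 2) with _ | ⟨u, j'⟩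
    · rw [hn] at hj
      exact absurd rfl hj
    · have h1 := nfi_deg _ _ _ _ hn
      rw [h1]
      rw [hn] at hj
      have h2 : j = j' := by
        by_contra hne
        apply hj
        exact Pi.single_eq_of_ne hne _
      rw [h2]
  basedeg := by
    intro j
    have h1 : IsWeightedHomogeneous wt (monomial (e3 (ea j) (eb j) (ec j)) (1 : R)) (dg j) := by
      refine isWeightedHomogeneous_monomial wt _ 1 ?_
      rw [weight_eq, e3_0, e3_1, e3_2]
      fin_cases j <;> simp [ea, eb, ec, dg]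
    have h2 : IsWeightedHomogeneous wt (monomial (e3 (ea' j) (eb' j) (ec' j)) (1 : R)) (dg j) := by
      refine isWeightedHomogeneous_monomial wt _ 1 ?_
      rw [weight_eq, e3_0, e3_1, e3_2]
      fin_cases j <;> simp [ea', eb', ec', dg]
    rw [bb]
    split_ifs with hj
    · exact h1
    · exact h1.add h2

end vec

/-- The Hilbert function. -/
def hh (a : ℤ × ℤ) : ℕ := Fintype.card {j : Fin 18 // dg j = a}

lemma nfi_none : ∀ a b c : ℕ, nfi a b c = none →
    (1 ≤ a ∧ 2 ≤ b) ∨ (2 ≤ a ∧ 1 ≤ b) ∨ 3 ≤ c ∨ 4 ≤ b ∨ (3 ≤ b ∧ 2 ≤ c) ∨ (2 ≤ a ∧ 2 ≤ c) ∨ 5 ≤ a ∨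
      (4 ≤ a ∧ 1 ≤ c) := by
  intro a b c h
  rcases a with _ | _ | _ | _ | _ | a <;> rcases b with _ | _ | _ | _ | b <;>
    rcases c with _ | _ | _ | c <;> simp [nfi] at h ⊢

lemma nfi_0 : ∀ (a b c : ℕ) (j : Fin 18), nfi a b c = some (0, j) →
    j.1 < 14 ∧ a = ea j ∧ b = eb j ∧ c = ec j := by
  intro a b c j h
  rcases a with _ | _ | _ | _ | _ | a <;> rcases b with _ | _ | _ | _ | b <;>
    rcases c with _ | _ | _ | c <;> simp [nfi] at h <;> subst h <;> simp [ea, eb, ec]

lemma nfi_1 : ∀ (a b c : ℕ) (j : Fin 18), nfi a b c = some (1, j) →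
    (a = 0 ∧ b = 1 ∧ c = 2 ∧ j = 14) ∨ (a = 1 ∧ b = 1 ∧ c = 1 ∧ j = 15) ∨
    (a = 1 ∧ b = 1 ∧ c = 2 ∧ j = 16) ∨ (a = 0 ∧ b = 2 ∧ c = 2 ∧ j = 17) := by
  intro a b c j h
  rcases a with _ | _ | _ | _ | _ | a <;> rcases b with _ | _ | _ | _ | b <;>
    rcases c with _ | _ | _ | c <;> simp [nfi] at h <;> subst h <;> simp

lemma nfi_2 : ∀ (a b c : ℕ) (j : Fin 18), nfi a b c = some (2, j) →
    (a = 2 ∧ b = 0 ∧ c = 1 ∧ j = 14) ∨ (a = 3 ∧ b = 0 ∧ c = 0 ∧ j = 15) ∨
    (a = 3 ∧ b = 0 ∧ c = 1 ∧ j = 16) ∨ (a = 4 ∧ b = 0 ∧ c = 0 ∧ j = 17) := by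
  intro a b c j h
  rcases a with _ | _ | _ | _ | _ | a <;> rcases b with _ | _ | _ | _ | b <;>
    rcases c with _ | _ | _ | c <;> simp [nfi] at h <;> subst h <;> simp

section point

variable {R : Type u} [CommRing R] {I : Ideal (MvPolynomial (Fin 3) R)}

lemma mon_mul (a b c a' b' c' : ℕ) :
    (monomial (e3 a b c) 1 : MvPolynomial (Fin 3) R) * monomial (e3 a' b' c') 1 =
      monomial (e3 (a + a') (b + b') (c + c')) 1 := by
  rw [monomial_mul, mul_one]
  congr 1
  rw [e3_eta (e3 a b c + e3 a' b' c')]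
  simp only [Finsupp.add_apply, e3_0, e3_1, e3_2]

lemma mem_mono {a b c : ℕ} (h : (monomial (e3 a b c) 1 : MvPolynomial (Fin 3) R) ∈ I)
    (a' b' c' : ℕ) (h1 : a ≤ a') (h2 : b ≤ b') (h3 : c ≤ c') :
    (monomial (e3 a' b' c') 1 : MvPolynomial (Fin 3) R) ∈ I := by
  obtain ⟨x, rfl⟩ := Nat.exists_eq_add_of_le h1
  obtain ⟨y, rfl⟩ := Nat.exists_eq_add_of_le h2
  obtain ⟨z, rfl⟩ := Nat.exists_eq_add_of_le h3
  rw [← mon_mul]
  exact Ideal.mul_mem_right _ _ h

lemma wt_e3 (a b c : ℕ) (p q : ℤ) (h1 : (a : ℤ) + 2 * b = p) (h2 : (a : ℤ) + 2 * c = q) :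
    Finsupp.weight wt (e3 a b c) = (p, q) := by
  rw [weight_eq, e3_0, e3_1, e3_2, h1, h2]

lemma X_eq0 : (X 0 : MvPolynomial (Fin 3) R) = monomial (e3 1 0 0) 1 := by
  rw [X]; congr 1; simp [e3]
lemma X_eq1 : (X 1 : MvPolynomial (Fin 3) R) = monomial (e3 0 1 0) 1 := by
  rw [X]; congr 1; simp [e3]
lemma X_eq2 : (X 2 : MvPolynomial (Fin 3) R) = monomial (e3 0 0 1) 1 := by
  rw [X]; congr 1; simp [e3]

/-- the class of a monomial in the corresponding piece -/
noncomputable def cls (I : Ideal (MvPolynomial (Fin 3) R)) (a b c : ℕ) (p q : ℤ)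
    (h1 : (a : ℤ) + 2 * b = p) (h2 : (a : ℤ) + 2 * c = q) : piece wt I (p, q) :=
  ⟨Ideal.Quotient.mk I (monomial (e3 a b c) 1), monomial_mem_piece (wt_e3 a b c p q h1 h2)⟩

lemma mulX_cls0 (a b c : ℕ) (p q p' q' : ℤ) (h : ((p, q) : ℤ × ℤ) + wt 0 = (p', q'))
    (h1 : (a : ℤ) + 2 * b = p) (h2 : (a : ℤ) + 2 * c = q)
    (h1' : ((a + 1 : ℕ) : ℤ) + 2 * b = p') (h2' : ((a + 1 : ℕ) : ℤ) + 2 * c = q') :
    mulX I 0 (p, q) (p', q') h (cls I a b c p q h1 h2) = cls I (a + 1) b c p' q' h1' h2' := by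
  apply Subtype.ext
  change Ideal.Quotient.mk I (X 0) * Ideal.Quotient.mk I (monomial (e3 a b c) 1) =
    Ideal.Quotient.mk I (monomial (e3 (a + 1) b c) 1)
  rw [← map_mul, X_eq0, mon_mul, add_comm 1 a, zero_add, zero_add]

lemma mulX_cls1 (a b c : ℕ) (p q p' q' : ℤ) (h : ((p, q) : ℤ × ℤ) + wt 1 = (p', q'))
    (h1 : (a : ℤ) + 2 * b = p) (h2 : (a : ℤ) + 2 * c = q)
    (h1' : (a : ℤ) + 2 * (b + 1 : ℕ) = p') (h2' : (a : ℤ) + 2 * c = q') :
    mulX I 1 (p, q) (p', q') h (cls I a b c p q h1 h2) = cls I a (b + 1) c p' q' h1' h2' := by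
  apply Subtype.ext
  change Ideal.Quotient.mk I (X 1) * Ideal.Quotient.mk I (monomial (e3 a b c) 1) =
    Ideal.Quotient.mk I (monomial (e3 a (b + 1) c) 1)
  rw [← map_mul, X_eq1, mon_mul, add_comm 1 b, zero_add, zero_add]

lemma mulX_cls2 (a b c : ℕ) (p q p' q' : ℤ) (h : ((p, q) : ℤ × ℤ) + wt 2 = (p', q'))
    (h1 : (a : ℤ) + 2 * b = p) (h2 : (a : ℤ) + 2 * c = q)
    (h1' : (a : ℤ) + 2 * b = p') (h2' : (a : ℤ) + 2 * (c + 1 : ℕ) = q') :
    mulX I 2 (p, q) (p', q') h (cls I a b c p q h1 h2) = cls I a b (c + 1) p' q' h1' h2' := by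
  apply Subtype.ext
  change Ideal.Quotient.mk I (X 2) * Ideal.Quotient.mk I (monomial (e3 a b c) 1) =
    Ideal.Quotient.mk I (monomial (e3 a b (c + 1)) 1)
  rw [← map_mul, X_eq2, mon_mul, add_comm 1 c, zero_add, zero_add]

lemma cls_eq_zero (a b c : ℕ) (p q : ℤ) (h1 : (a : ℤ) + 2 * b = p) (h2 : (a : ℤ) + 2 * c = q)
    (h : (monomial (e3 a b c) 1 : MvPolynomial (Fin 3) R) ∈ I) : cls I a b c p q h1 h2 = 0 :=
  Subtype.ext (Ideal.Quotient.eq_zero_iff_mem.2 h)

lemma point_to_e (hI : IsPoint wt hh I) : ∃ e : R, e * e = e ∧ Reduces (vec e) (bb R) I := by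
  -- the vanishing monomials
  have z120 : (monomial (e3 1 2 0) 1 : MvPolynomial (Fin 3) R) ∈ I :=
    mem_of_rank_zero hI (a := (5, 1)) (by decide) (wt_e3 _ _ _ _ _ (by norm_num) (by norm_num))
  have z003 : (monomial (e3 0 0 3) 1 : MvPolynomial (Fin 3) R) ∈ I :=
    mem_of_rank_zero hI (a := (0, 6)) (by decide) (wt_e3 _ _ _ _ _ (by norm_num) (by norm_num))
  have z040 : (monomial (e3 0 4 0) 1 : MvPolynomial (Fin 3) R) ∈ I :=
    mem_of_rank_zero hI (a := (8, 0)) (by decide) (wt_e3 _ _ _ _ _ (by norm_num) (by norm_num))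
  have z032 : (monomial (e3 0 3 2) 1 : MvPolynomial (Fin 3) R) ∈ I :=
    mem_of_rank_zero hI (a := (6, 4)) (by decide) (wt_e3 _ _ _ _ _ (by norm_num) (by norm_num))
  have z202 : (monomial (e3 2 0 2) 1 : MvPolynomial (Fin 3) R) ∈ I :=
    mem_of_rank_zero hI (a := (2, 6)) (by decide) (wt_e3 _ _ _ _ _ (by norm_num) (by norm_num))
  have z500 : (monomial (e3 5 0 0) 1 : MvPolynomial (Fin 3) R) ∈ I :=
    mem_of_rank_zero hI (a := (5, 5)) (by decide) (wt_e3 _ _ _ _ _ (by norm_num) (by norm_num))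
  have z401 : (monomial (e3 4 0 1) 1 : MvPolynomial (Fin 3) R) ∈ I :=
    mem_of_rank_zero hI (a := (4, 6)) (by decide) (wt_e3 _ _ _ _ _ (by norm_num) (by norm_num))
  have z210 : (monomial (e3 2 1 0) 1 : MvPolynomial (Fin 3) R) ∈ I := by
    have hb := mulX_bij hI 1 (4, 2) (6, 2) (by decide) (by decide) (by
      intro s hs
      rw [weight_eq, Prod.mk.injEq] at hs
      right; omega)
    have h1 := mulX_cls1 (I := I) 2 1 0 4 2 6 2 (by decide) (by norm_num) (by norm_num) (by norm_num) (by norm_num)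
    rw [cls_eq_zero (I := I) 2 (1 + 1) 0 6 2 _ _ (mem_mono z120 _ _ _ (by omega) (by omega) (by omega))] at h1
    have h2 := hb.1 (h1.trans (map_zero _).symm)
    exact Ideal.Quotient.eq_zero_iff_mem.1 (congrArg Subtype.val h2)
  have hnone : ∀ a b c, nfi a b c = none → (monomial (e3 a b c) 1 : MvPolynomial (Fin 3) R) ∈ I := by
    intro a b c hn
    rcases nfi_none a b c hn with ⟨h, h'⟩ | ⟨h, h'⟩ | h | h | ⟨h, h'⟩ | ⟨h, h'⟩ | h | ⟨h, h'⟩
    · exact mem_mono z120 _ _ _ h h' (by omega)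
    · exact mem_mono z210 _ _ _ h h' (by omega)
    · exact mem_mono z003 _ _ _ (by omega) (by omega) h
    · exact mem_mono z040 _ _ _ (by omega) h (by omega)
    · exact mem_mono z032 _ _ _ (by omega) h h'
    · exact mem_mono z202 _ _ _ h (by omega) h'
    · exact mem_mono z500 _ _ _ h (by omega) (by omega)
    · exact mem_mono z401 _ _ _ h (by omega) h'
  -- the elements
  let u1 := cls I 0 1 2 2 4 (by norm_num) (by norm_num)
  let u2 := cls I 2 0 1 2 4 (by norm_num) (by norm_num)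
  let v1 := cls I 1 1 1 3 3 (by norm_num) (by norm_num)
  let v2 := cls I 3 0 0 3 3 (by norm_num) (by norm_num)
  let p1 := cls I 1 1 2 3 5 (by norm_num) (by norm_num)
  let p2 := cls I 3 0 1 3 5 (by norm_num) (by norm_num)
  let q1 := cls I 0 2 2 4 4 (by norm_num) (by norm_num)
  let q2 := cls I 4 0 0 4 4 (by norm_num) (by norm_num)
  -- the isomorphisms
  have hα := mulX_bij hI 0 (2, 4) (3, 5) (by decide) (by decide) (by
    intro s hs
    rw [weight_eq, Prod.mk.injEq] at hs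
    right; omega)
  have hβ := mulX_bij hI 2 (3, 3) (3, 5) (by decide) (by decide) (by
    intro s hs
    rw [weight_eq, Prod.mk.injEq] at hs
    right; omega)
  let α := LinearEquiv.ofBijective _ hα
  let β := LinearEquiv.ofBijective _ hβ
  let f := mulX (w := wt) I 1 ((2, 4) : ℤ × ℤ) ((4, 4) : ℤ × ℤ) (by decide)
  let g := mulX (w := wt) I 0 ((3, 3) : ℤ × ℤ) ((4, 4) : ℤ × ℤ) (by decide)
  have hα1 : α u1 = p1 := mulX_cls0 0 1 2 2 4 3 5 (by decide) (by norm_num) (by norm_num) (by norm_num) (by norm_num)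
  have hα2 : α u2 = p2 := mulX_cls0 2 0 1 2 4 3 5 (by decide) (by norm_num) (by norm_num) (by norm_num) (by norm_num)
  have hβ1 : β v1 = p1 := mulX_cls2 1 1 1 3 3 3 5 (by decide) (by norm_num) (by norm_num) (by norm_num) (by norm_num)
  have hβ2 : β v2 = p2 := mulX_cls2 3 0 0 3 3 3 5 (by decide) (by norm_num) (by norm_num) (by norm_num) (by norm_num)
  have hf1 : f u1 = q1 := mulX_cls1 0 1 2 2 4 4 4 (by decide) (by norm_num) (by norm_num) (by norm_num) (by norm_num)
  have hf2 : f u2 = 0 := by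
    rw [show f u2 = cls I 2 (0 + 1) 1 4 4 (by norm_num) (by norm_num) from
      mulX_cls1 2 0 1 2 4 4 4 (by decide) (by norm_num) (by norm_num) (by norm_num) (by norm_num)]
    exact cls_eq_zero _ _ _ _ _ _ _ (mem_mono z210 _ _ _ (by omega) (by omega) (by omega))
  have hg1 : g v1 = 0 := by
    rw [show g v1 = cls I (1 + 1) 1 1 4 4 (by norm_num) (by norm_num) from
      mulX_cls0 1 1 1 3 3 4 4 (by decide) (by norm_num) (by norm_num) (by norm_num) (by norm_num)]
    exact cls_eq_zero _ _ _ _ _ _ _ (mem_mono z210 _ _ _ (by omega) (by omega) (by omega))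
  have hg2 : g v2 = q2 := mulX_cls0 3 0 0 3 3 4 4 (by decide) (by norm_num) (by norm_num) (by norm_num) (by norm_num)
  let F : piece wt I (3, 5) →ₗ[R] piece wt I (4, 4) := f ∘ₗ α.symm.toLinearMap
  let G : piece wt I (3, 5) →ₗ[R] piece wt I (4, 4) := g ∘ₗ β.symm.toLinearMap
  have hF1 : F p1 = q1 := by
    change f (α.symm p1) = q1
    rw [← hα1, LinearEquiv.symm_apply_apply, hf1]
  have hF2 : F p2 = 0 := by
    change f (α.symm p2) = 0
    rw [← hα2, LinearEquiv.symm_apply_apply, hf2]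
  have hG1 : G p1 = 0 := by
    change g (β.symm p1) = 0
    rw [← hβ1, LinearEquiv.symm_apply_apply, hg1]
  have hG2 : G p2 = q2 := by
    change g (β.symm p2) = q2
    rw [← hβ2, LinearEquiv.symm_apply_apply, hg2]
  have hS1 : (F + G) p1 = q1 := by rw [LinearMap.add_apply, hF1, hG1, add_zero]
  have hS2 : (F + G) p2 = q2 := by rw [LinearMap.add_apply, hF2, hG2, zero_add]
  -- generation
  have hgenp : Submodule.span R {p1, p2} = ⊤ := by
    refine span_pair_top p1 p2 ?_
    intro s hs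
    rw [weight_eq, Prod.mk.injEq] at hs
    have h3 : s 0 = 1 ∨ s 0 = 3 := by omega
    rw [e3_eta s]
    rcases h3 with h3 | h3
    · refine ⟨1, 0, ?_⟩
      rw [h3, show s 1 = 1 by omega, show s 2 = 2 by omega, one_smul, zero_smul, add_zero]
      rfl
    · refine ⟨0, 1, ?_⟩
      rw [h3, show s 1 = 0 by omega, show s 2 = 1 by omega, one_smul, zero_smul, zero_add]
      rfl
  have hgenq : Submodule.span R {q1, q2} = ⊤ := by
    refine span_pair_top q1 q2 ?_
    intro s hs
    rw [weight_eq, Prod.mk.injEq] at hs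
    have h3 : s 0 = 0 ∨ s 0 = 2 ∨ s 0 = 4 := by omega
    rw [e3_eta s]
    rcases h3 with h3 | h3 | h3
    · refine ⟨1, 0, ?_⟩
      rw [h3, show s 1 = 2 by omega, show s 2 = 2 by omega, one_smul, zero_smul, add_zero]
      rfl
    · refine ⟨0, 0, ?_⟩
      rw [zero_smul, zero_smul, add_zero, Ideal.Quotient.eq_zero_iff_mem]
      exact mem_mono z210 _ _ _ (by omega) (by omega) (by omega)
    · refine ⟨0, 1, ?_⟩
      rw [h3, show s 1 = 0 by omega, show s 2 = 0 by omega, one_smul, zero_smul, zero_add]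
      rfl
  obtain ⟨hfin, hproj, hrk⟩ := hI.2 (3, 5)
  obtain ⟨hfin', hproj', hrk'⟩ := hI.2 (4, 4)
  have hrk1 : ∀ P : PrimeSpectrum R, Module.rankAtStalk (piece wt I (3, 5)) P = 1 := by
    intro P; rw [hrk]; decide
  have hrk1' : ∀ P : PrimeSpectrum R, Module.rankAtStalk (piece wt I (4, 4)) P = 1 := by
    intro P; rw [hrk']; decide
  have hSsurj : Function.Surjective (F + G) := by
    rw [← LinearMap.range_eq_top, eq_top_iff, ← hgenq, Submodule.span_le]
    rintro x (rfl | rfl)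
    · exact ⟨p1, hS1⟩
    · exact ⟨p2, hS2⟩
  have hSbij : Function.Bijective (F + G) :=
    Module.bijective_of_surjective_of_rankAtStalk_eq hSsurj (fun m hm => by rw [hrk1, hrk1'])
  let σ := LinearEquiv.ofBijective (F + G) hSbij
  have hσ1 : σ p1 = q1 := hS1
  have hσ2 : σ p2 = q2 := hS2
  let θ : piece wt I (3, 5) →ₗ[R] piece wt I (3, 5) := σ.symm.toLinearMap ∘ₗ F
  have hθ1 : θ p1 = p1 := by
    change σ.symm (F p1) = p1
    rw [hF1, ← hσ1, LinearEquiv.symm_apply_apply]
  have hθ2 : θ p2 = 0 := by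
    change σ.symm (F p2) = 0
    rw [hF2, map_zero]
  have hθs : θ (p1 + p2) = p1 := by rw [map_add, hθ1, hθ2, add_zero]
  have hgen : Submodule.span R {p1, p1 + p2} = ⊤ := by
    rw [eq_top_iff, ← hgenp, Submodule.span_le]
    rintro x (rfl | rfl)
    · exact Submodule.subset_span (Set.mem_insert _ _)
    · have h1 : (p1 + p2) - p1 ∈ Submodule.span R {p1, p1 + p2} :=
        Submodule.sub_mem _ (Submodule.subset_span (Set.mem_insert_of_mem _ (Set.mem_singleton _)))
          (Submodule.subset_span (Set.mem_insert _ _))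
      rw [add_sub_cancel_left] at h1
      exact h1
  have hsurj := rank_one_surj hrk1 θ p1 (p1 + p2) hθs hgen
  have hbij := rank_one_bij hrk1 _ hsurj
  obtain ⟨e, he⟩ := hsurj p1
  rw [LinearMap.toSpanSingleton_apply] at he
  have hee : e * e = e := by
    apply hbij.1
    rw [LinearMap.toSpanSingleton_apply, LinearMap.toSpanSingleton_apply, mul_smul, he]
    have h1 : θ (e • (p1 + p2)) = θ p1 := by rw [he]
    rw [map_smul, hθs, hθ1] at h1
    exact h1
  have he2 : (1 - e) • (p1 + p2) = p2 := by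
    have h1 : (1 - e) • (p1 + p2) + e • (p1 + p2) = p1 + p2 := by
      rw [← add_smul, sub_add_cancel, one_smul]
    rw [he, add_comm] at h1
    exact add_left_cancel h1
  have hu1 : u1 = e • (u1 + u2) := by
    apply α.injective
    rw [map_smul, map_add, hα1, hα2, he]
  have hu2 : u2 = (1 - e) • (u1 + u2) := by
    apply α.injective
    rw [map_smul, map_add, hα1, hα2, he2]
  have hv1 : v1 = e • (v1 + v2) := by
    apply β.injective
    rw [map_smul, map_add, hβ1, hβ2, he]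
  have hv2 : v2 = (1 - e) • (v1 + v2) := by
    apply β.injective
    rw [map_smul, map_add, hβ1, hβ2, he2]
  have hq1 : q1 = e • (q1 + q2) := by
    rw [← hσ1, ← hσ2, ← map_add, ← map_smul, he]
  have hq2 : q2 = (1 - e) • (q1 + q2) := by
    rw [← hσ1, ← hσ2, ← map_add, ← map_smul, he2]
  refine ⟨e, hee, ?_⟩
  intro s
  have hsum : ∀ (j : Fin 18) (r : R), ∑ i, (Pi.single j r : Fin 18 → R) i • bb R i = r • bb R j := by
    intro j r
    rw [Finset.sum_eq_single j]
    · rw [Pi.single_eq_same]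
    · intro i _ hi
      rw [Pi.single_eq_of_ne hi, zero_smul]
    · intro h; exact absurd (Finset.mem_univ j) h
  have hT : ∀ (s : Fin 3 →₀ ℕ) (j : Fin 18) (r : R),
      Ideal.Quotient.mk I (monomial s 1) = r • Ideal.Quotient.mk I (bb R j) →
      (monomial s 1 : MvPolynomial (Fin 3) R) - r • bb R j ∈ I := by
    intro s j r h
    rw [← Ideal.Quotient.eq_zero_iff_mem, map_sub, h]
    change r • Ideal.Quotient.mk I (bb R j) - r • Ideal.Quotient.mk I (bb R j) = 0
    rw [sub_self]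
  have hvec : vec e s = vo e (nfi (s 0) (s 1) (s 2)) := rfl
  rw [hvec]
  rcases hn : nfi (s 0) (s 1) (s 2) with _ | ⟨u, j⟩
  · have h1 : ∑ j, (vo e none : Fin 18 → R) j • bb R j = 0 :=
      Finset.sum_eq_zero (fun j _ => by rw [vo, Pi.zero_apply, zero_smul])
    rw [h1, sub_zero, e3_eta s]
    exact hnone _ _ _ hn
  · rw [vo, hsum]
    apply hT
    rw [e3_eta s]
    have hu : ∀ u : Fin 3, u = 0 ∨ u = 1 ∨ u = 2 := by decide
    rcases hu u with rfl | rfl | rfl
    · obtain ⟨h0, h1, h2, h3⟩ := nfi_0 _ _ _ _ hn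
      rw [bb, if_pos h0, h1, h2, h3]
      change _ = (1 : R) • _
      rw [one_smul]
    · rcases nfi_1 _ _ _ _ hn with ⟨h1, h2, h3, rfl⟩ | ⟨h1, h2, h3, rfl⟩ | ⟨h1, h2, h3, rfl⟩ | ⟨h1, h2, h3, rfl⟩ <;>
        rw [h1, h2, h3]
      · exact congrArg Subtype.val hu1
      · exact congrArg Subtype.val hv1
      · exact congrArg Subtype.val he.symm
      · exact congrArg Subtype.val hq1
    · rcases nfi_2 _ _ _ _ hn with ⟨h1, h2, h3, rfl⟩ | ⟨h1, h2, h3, rfl⟩ | ⟨h1, h2, h3, rfl⟩ | ⟨h1, h2, h3, rfl⟩ <;>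
        rw [h1, h2, h3]
      · exact congrArg Subtype.val hu2
      · exact congrArg Subtype.val hv2
      · exact congrArg Subtype.val he2.symm
      · exact congrArg Subtype.val hq2

end point

/-- The homomorphism `k × k → R` attached to an idempotent of `R`. -/
noncomputable def idemHom {k R : Type u} [Field k] [CommRing R] [Algebra k R] (e : R)
    (he : e * e = e) : (k × k) →ₐ[k] R where
  toFun p := algebraMap k R p.1 * e + algebraMap k R p.2 * (1 - e)
  map_one' := by simp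
  map_mul' := by
    intro x y
    simp only [Prod.fst_mul, Prod.snd_mul, map_mul]
    linear_combination (-(algebraMap k R x.1 * algebraMap k R y.1) +
      algebraMap k R x.1 * algebraMap k R y.2 + algebraMap k R x.2 * algebraMap k R y.1 -
      algebraMap k R x.2 * algebraMap k R y.2) * he
  map_zero' := by simp
  map_add' := by
    intro x y
    simp only [Prod.fst_add, Prod.snd_add, map_add]
    ring
  commutes' := by
    intro r
    change algebraMap k R r * e + algebraMap k R r * (1 - e) = algebraMap k R r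
    ring

/-- **A disconnected multigraded Hilbert scheme in three variables.**  Over every field `k`, for
`k[x, y, z]` graded by `ℤ²` with `deg x = (1,1)`, `deg y = (2,0)`, `deg z = (0,2)` there is
`h : ℤ² → ℕ` such that the multigraded Hilbert scheme is represented by `Spec (k × k)`, i.e. it
consists of two disjoint reduced points; this scheme is nonempty and not connected. -/
theorem result (k : Type u) [Field k] :
    ∃ (w : Fin 3 → ℤ × ℤ) (h : ℤ × ℤ → ℕ), Represents k w h (k × k) ∧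
      Nonempty (PrimeSpectrum (k × k)) ∧ ¬ ConnectedSpace (PrimeSpectrum (k × k)) := by
  have hE : ((1, 0) : k × k) * (1, 0) = (1, 0) := by simp
  have hmap : ∀ (R : Type u) [CommRing R] [Algebra k R] (φ : (k × k) →ₐ[k] R)
      (ht : φ (1, 0) * φ (1, 0) = φ (1, 0)),
      (nfIdeal (vec ((1, 0) : k × k)) (sys _ hE).compat).map (MvPolynomial.map φ.toRingHom) =
        nfIdeal (vec (φ (1, 0))) (sys _ ht).compat := by
    intro R _ _ φ ht
    refine map_nfIdeal φ.toRingHom (sys _ hE) (vec (φ (1, 0))) (bb R) (sys _ ht) ?_ ?_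
    · intro s j
      rw [vec, vec]
      rcases nfi (s 0) (s 1) (s 2) with _ | ⟨u, j'⟩
      · simp [vo]
      · by_cases hj : j = j'
        · subst hj
          rw [vo, vo, Pi.single_eq_same, Pi.single_eq_same]
          change φ (co ((1, 0) : k × k) u) = co (φ (1, 0)) u
          fin_cases u
          · exact map_one φ
          · rfl
          · change φ (1 - (1, 0)) = 1 - φ (1, 0)
            rw [map_sub, map_one]
        · rw [vo, vo, Pi.single_eq_of_ne hj, Pi.single_eq_of_ne hj, map_zero]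
    · intro j
      rw [bb, bb]
      split_ifs
      · rw [map_monomial, map_one]
      · rw [map_add, map_monomial, map_monomial, map_one]
  have hsq : ∀ (R : Type u) [CommRing R] [Algebra k R] (φ : (k × k) →ₐ[k] R),
      φ (1, 0) * φ (1, 0) = φ (1, 0) := by
    intro R _ _ φ
    rw [← map_mul, hE]
  refine ⟨wt, hh, ⟨nfIdeal (vec ((1, 0) : k × k)) (sys _ hE).compat, nfIdeal_isPoint (sys _ hE), ?_⟩,
    inferInstance, ?_⟩
  · intro R _ _
    refine ⟨fun φ => ?_, fun I hI => ?_⟩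
    · rw [hmap R φ (hsq R φ)]
      exact nfIdeal_isPoint (sys _ (hsq R φ))
    · obtain ⟨e, he, hred⟩ := point_to_e hI
      have hIt := eq_nfIdeal (sys e he) hred hI
      have h1 : (idemHom e he : (k × k) →ₐ[k] R) (1, 0) = e := by
        change algebraMap k R 1 * e + algebraMap k R 0 * (1 - e) = e
        rw [map_one, map_zero]; ring
      refine ⟨idemHom e he, ?_, ?_⟩
      · have h2 := hmap R (idemHom e he) (by rw [h1]; exact he)
        refine h2.trans ?_
        rw [hIt]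
        congr 1
        rw [h1]
      · intro φ hφ
        have hφ' : (nfIdeal (vec ((1, 0) : k × k)) (sys _ hE).compat).map
          (MvPolynomial.map φ.toRingHom) = I := hφ
        rw [hmap R φ (hsq R φ)] at hφ'
        have h3 : (monomial (e3 1 1 1) 1 : MvPolynomial (Fin 3) R) - e • bb R 15 ∈
            nfIdeal (vec (φ (1, 0))) (sys _ (hsq R φ)).compat := by
          rw [hφ', hIt, mem_nfIdeal, map_sub, map_smul, NF_monomial, one_smul, (sys e he).base]
          rw [vec, e3_0, e3_1, e3_2]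
          change (Pi.single 15 e : Fin 18 → R) - e • Pi.single 15 1 = 0
          rw [← Pi.single_smul, smul_eq_mul, mul_one, sub_self]
        rw [mem_nfIdeal, map_sub, map_smul, NF_monomial, one_smul, (sys _ (hsq R φ)).base] at h3
        rw [vec, e3_0, e3_1, e3_2] at h3
        have h4 : (Pi.single 15 (φ (1, 0)) : Fin 18 → R) - e • Pi.single 15 1 = 0 := h3
        have h5 := congrFun h4 15
        simp at h5
        have h6 : φ (1, 0) = e := sub_eq_zero.1 h5
        apply AlgHom.ext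
        rintro ⟨a, b⟩
        change φ (a, b) = algebraMap k R a * e + algebraMap k R b * (1 - e)
        have h7 : ((a, b) : k × k) = algebraMap k (k × k) a * (1, 0) + algebraMap k (k × k) b * (1 - (1, 0)) := by
          ext <;> simp
        rw [h7, map_add, map_mul, map_mul, map_sub, map_one, φ.commutes, φ.commutes, h6]
  · intro hc
    have h1 : IsClopen (PrimeSpectrum.basicOpen ((1, 0) : k × k) : Set (PrimeSpectrum (k × k))) :=
      PrimeSpectrum.isClopen_iff.2 ⟨(1, 0), hE, rfl⟩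
    rcases isClopen_iff.1 h1 with h2 | h2
    · have h3 := PrimeSpectrum.basicOpen_eq_bot_iff ((1, 0) : k × k)
      have h4 : IsNilpotent ((1, 0) : k × k) := h3.1 (TopologicalSpace.Opens.ext h2)
      obtain ⟨n, hn⟩ := h4
      have h5 := congrArg Prod.fst hn
      simp at h5
    · have h3 : ¬ IsUnit ((1, 0) : k × k) := fun h => not_isUnit_zero (Prod.isUnit_iff.1 h).2
      obtain ⟨M, hM, hmem⟩ := exists_max_ideal_of_mem_nonunits h3
      have h4 : (⟨M, hM.isPrime⟩ : PrimeSpectrum (k × k)) ∈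
          (PrimeSpectrum.basicOpen ((1, 0) : k × k) : Set (PrimeSpectrum (k × k))) := by
        rw [h2]; trivial
      exact h4 hmem

end Pool.Agent.Results.MP_411355_ag.Disconnected
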